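import Pool.Agent.H704R2.PAM.S2
import Pool.Agent.H704R2.PAM.V
import Pool.Agent.H704R2.PAM.G

set_option autoImplicit false
open MeasureTheory ProbabilityTheory Filter Topology Set
open scoped ENNReal NNReal
open Pool.Agent.H704R2.PAM

/-- For every diffusivity `k ≥ 0` and every linear drift correction `lam` (`-1/2`: Ito, `0`:
Stratonovich) the nonlinear parabolic Anderson model `du = (k Δ u - ε u^γ) dt + u dw`, `u(0) = 1`,
on `Z^d` has exactly one solution in the natural class, and the fields `u(t + ·, ·)` converge in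
distribution to a field which is homogeneous in time and space and ergodic. -/
theorem Pool.Agent.Results.MP_0db9b2_pr.ConvergenceAllK.result
    {Ω : Type*} [mΩ : MeasurableSpace Ω] (P : Measure Ω) [IsProbabilityMeasure P]
    (ℱ : Filtration ℝ≥0 mΩ) {d : ℕ} (hd : 0 < d) {γ : ℕ} (hγ : 2 ≤ γ) {ε k : ℝ} (hε : 0 < ε)
    (hk : 0 ≤ k) (lam : ℝ) (w : Site d → ℝ≥0 → Ω → ℝ) (hw : Noise P w) (hF : NoiseFilt P ℱ w) :
    (∃ u, IsSol P ℱ γ k ε lam w u) ∧
    (∀ u u', IsSol P ℱ γ k ε lam w u → IsSol P ℱ γ k ε lam w u' →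
      ∀ᵐ ω ∂P, ∀ t x, u t x ω = u' t x ω) ∧
    ∃ ν : Measure (ℝ≥0 × Site d → ℝ), IsProbabilityMeasure ν ∧
      (∀ s y, ν.map (shf s y) = ν) ∧
      (∀ A, MeasurableSet A → (∀ s y, shf s y ⁻¹' A =ᵐ[ν] A) → ν A = 0 ∨ ν A = 1) ∧
      ∀ u, IsSol P ℱ γ k ε lam w u → FddTendsto P u ν := by
  obtain ⟨p, rfl⟩ : ∃ p, γ = p + 1 := ⟨γ - 1, by omega⟩
  have hp : 1 ≤ p := by omega
  let Q : Par := ⟨d, p, k, ε, lam, hd, hp, hk, hε⟩
  have hex : IsSol P ℱ (p + 1) k ε lam w (fun t x ω => uu Q (pth w ω) 1 t x) :=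
    isSol_uu Q hw hF
  have huniq : ∀ u u', IsSol P ℱ (p + 1) k ε lam w u → IsSol P ℱ (p + 1) k ε lam w u' →
      ∀ᵐ ω ∂P, ∀ t x, u t x ω = u' t x ω := fun u u' hu hu' => isSol_unique Q hw hF hu hu'
  obtain ⟨ν, hνp, hfdd, hinv⟩ := exists_limit_law Q hw
  refine ⟨⟨_, hex⟩, huniq, ν, hνp, hinv, fun A hA hAinv => ?_, fun u hu I f => ?_⟩
  · exact ergodic_of_mixing hinv
      (fun I f K hf η hη => limit_mixing Q hw hfdd I f K hf hη) hA hAinv
  · have h1 := huniq u _ hu hex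
    refine (hfdd I f).congr fun t => ?_
    refine integral_congr_ae ?_
    filter_upwards [h1] with ω hω
    congr 1
    funext i
    exact (hω _ _).symm
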